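import Pool.Agent.H.MP_027d00_lc.adv.Mono

/-!
# Composition with inner functions that have a large quantum adversary bound

For all Boolean functions `f` and `g₁, ..., g_m`, the de Morgan formula size of
`f (g₁, ..., g_m)` is at least a constant times `L(f)` times the square of the smallest (weighted)
quantum adversary bound of the `g_j`.
-/

set_option autoImplicit false

open Pool.Agent.H.MP_027d00_lc.UComp Pool.Agent.H.MP_027d00_lc.AdvC

namespace Pool.Agent.Results.MP_027d00_lc.AdversaryComposition

/-- The Karchmer-Raz-Wigderson conjecture, up to a constant factor, for the AND-OR trees of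
parities of disjoint sets of variables as inner functions (the sets may have any sizes). -/
theorem parity_trees (m n k : ℕ) (f : (Fin m → Bool) → Bool) (T : Fin m → PTree n)
    (hT : ∀ j, (T j).OK ∧ k ≤ fsize (fun x => (T j).eval x)) :
    fsize f * k ≤ 2 * 10 ^ 10 * fsize (comp f (fun j x => (T j).eval x)) := by
  have h1 := main_pTree f T hT
  have h2 : (24 * 28800 ^ 2 : ℝ) * fsize (comp f (fun j x => (T j).eval x)) ≤
      2 * 10 ^ 10 * fsize (comp f (fun j x => (T j).eval x)) :=
    mul_le_mul_of_nonneg_right (by norm_num) (Nat.cast_nonneg _)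
  have h3 := h1.trans h2
  exact_mod_cast h3

theorem result (m n : ℕ) (f : (Fin m → Bool) → Bool) (g : Fin m → (Fin n → Bool) → Bool)
    (lam : ℝ) (hg : ∀ j, HasAdv (g j) lam) :
    (fsize f : ℝ) * lam ^ 2 ≤ 5 * 10 ^ 9 * fsize (comp f g) := by
  refine (main f g lam hg).trans ?_
  exact mul_le_mul_of_nonneg_right (by norm_num) (Nat.cast_nonneg _)

end Pool.Agent.Results.MP_027d00_lc.AdversaryComposition
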