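import Pool.Agent.H.MP_027d00_lc.mono.Final

/-!
# The monotone composition of any two monotone functions
-/

set_option autoImplicit false

open Pool.Agent.H.MP_027d00_lc.Monot

namespace Pool.Agent.Results.MP_027d00_lc.MonotoneKRW

theorem size_le_depth {V : Type} (F : Mf V) : Real.logb 2 F.size ≤ F.depth := by
  rcases Nat.eq_zero_or_pos F.size with h | h
  · rw [h]
    simp
  · have h1 : (0 : ℝ) < F.size := by exact_mod_cast h
    have h2 : (F.size : ℝ) ≤ 2 ^ F.depth := by exact_mod_cast F.size_le
    have h3 := Real.logb_le_logb_of_le (b := 2) (by norm_num) h1 h2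
    rwa [Real.logb_pow, Real.logb_self_eq_one (by norm_num), mul_one] at h3

theorem result :
    ∀ (m n : ℕ) (f : (Fin m → Bool) → Bool) (g : (Fin n → Bool) → Bool),
      Monotone f → Monotone g → (∃ a b, f a ≠ f b) → (∃ x y, g x ≠ g y) →
      ∀ F : Mf (Fin m × Fin n), (∀ X, F.eval X = comp f g X) →
        Real.logb 2 (msize g) + Real.logb 2 (msize f) ^ 2 / (8 * m) -
            (16 * Real.logb 2 m + 3 * Real.logb 2 n + 87) ≤ Real.logb 2 F.size ∧
          Real.logb 2 F.size ≤ F.depth :=
  fun _ _ f g hfm hgm hf hg F hF =>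
    ⟨mono_composition f g hfm hgm hf hg F hF, size_le_depth F⟩

end Pool.Agent.Results.MP_027d00_lc.MonotoneKRW
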