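import Pool.Agent.H.MP_8a52c3_lc.Others
import Pool.Agent.H.MP_8a52c3_lc.Tuples

set_option autoImplicit false

namespace Pool.Agent.Results.MP_027d00_lc.SeparateCliques

open Pool.Agent.H.MP_8a52c3_lc

/-- Inputs are `K`-tuples of graphs on `v` vertices; `n = Fintype.card (Fin K × Pairs v)` is the
number of variables and `X = log₂ n - 2 log₂ v`.  Let `C` be a circuit with `C.size` AND and OR
gates and with `R` other gates, which compute arbitrary Boolean functions (for example NOT gates),
have total fan-in `I`, and lie at most `k` on each path to the output.  If `K (C.size + 2) ≤ l ^ l`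
and `C` accepts if one of the graphs has an `r`-clique and rejects if all of them are
`4 l ^ 2`-colourable, then `X ≤ I`, `X ≤ k log₂ (1 + I / k)` and `X ≤ R + log₂ (I + 1)`. -/
theorem result (l r v K s : ℕ) (hl : 64 ≤ l) (hK : 1 ≤ K) (hv2 : 2 ≤ v) (hv : r * l ^ 7 ≤ v)
    (C : Circuit (Fin K × Pairs v) s) (hsize : K * (C.size + 2) ≤ l ^ l)
    (hpos : ∀ x : Fin K × Pairs v → Bool,
      (∃ j, HasClique r (fun p => x (j, p))) → C.eval x = true)
    (hneg : ∀ x : Fin K × Pairs v → Bool,
      (∀ j, IsColorable (4 * l ^ 2) (fun p => x (j, p))) → C.eval x = false) :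
    Real.logb 2 (Fintype.card (Fin K × Pairs v)) - 2 * Real.logb 2 v ≤ (C.otherFan : ℝ) ∧
    Real.logb 2 (Fintype.card (Fin K × Pairs v)) - 2 * Real.logb 2 v ≤
      (C.otherDepth : ℝ) * Real.logb 2 (1 + (C.otherFan : ℝ) / (C.otherDepth : ℝ)) ∧
    Real.logb 2 (Fintype.card (Fin K × Pairs v)) - 2 * Real.logb 2 v ≤
      (C.numOther : ℝ) + Real.logb 2 ((C.otherFan : ℝ) + 1) := by
  have hs1 : C.size + K < l ^ l := by
    have h1 : K * (C.size + 2) = K * C.size + 2 * K := by ring
    have h2 : C.size ≤ K * C.size := Nat.le_mul_of_pos_left _ hK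
    omega
  have hs2 : K * (C.size + 1) ≤ l ^ l :=
    le_trans (Nat.mul_le_mul_left _ (by omega)) hsize
  obtain ⟨h1, h2⟩ := tuples_bound hl hv C hs1 hpos hneg
  have h3 := log_form hK hv2 h1
  have h4 := log_form hK hv2 h2
  rw [Real.logb_pow, Real.logb_self_eq_one (by norm_num), mul_one] at h3
  rw [Real.logb_pow] at h4
  refine ⟨h3, h4, ?_⟩
  have g1 := tuples_others hl hv C hs2 hpos hneg
  have g2 : (K : ℝ) ≤ 2 * (2 ^ C.numOther * ((C.otherFan : ℝ) + 1)) := by exact_mod_cast g1
  have g3 := log_form' hK hv2 g2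
  have g4 : (0 : ℝ) < (C.otherFan : ℝ) + 1 := by positivity
  rw [Real.logb_mul (by positivity) g4.ne', Real.logb_pow, Real.logb_self_eq_one (by norm_num),
    mul_one] at g3
  exact g3

end Pool.Agent.Results.MP_027d00_lc.SeparateCliques
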