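import Pool.Agent.H.MP_027d00_lc.strong.Final3

/-!
# The strong composition of the Karchmer-Wigderson games of any two functions
-/

set_option autoImplicit false

open Pool.Agent.H.MP_027d00_lc.UComp Pool.Agent.H.MP_027d00_lc.SComp

namespace Pool.Agent.Results.MP_027d00_lc.StrongComposition

theorem leaves_le_depth {A B O : Type} (P : Prot A B O) : Real.logb 2 P.leaves ≤ P.depth := by
  have h1 : (0 : ℝ) < P.leaves := by exact_mod_cast P.leaves_pos
  have h2 : (P.leaves : ℝ) ≤ 2 ^ P.depth := by exact_mod_cast P.leaves_le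
  have h3 := Real.logb_le_logb_of_le (b := 2) (by norm_num) h1 h2
  rwa [Real.logb_pow, Real.logb_self_eq_one (by norm_num), mul_one] at h3

theorem result :
    ∀ (m n : ℕ) (f : (Fin m → Bool) → Bool) (g : (Fin n → Bool) → Bool)
      (P : Prot (Mat m n) (Mat m n) (Fin m × Fin n)),
      (∃ a b, f a ≠ f b) → (∃ x y, g x ≠ g y) → StrongSolves f g P →
        Real.logb 2 (fsize g) + Real.logb 2 (fsize f) ^ 2 / (8 * m) -
            (29 * Real.logb 2 m + 3 * Real.logb 2 n + 119) ≤ Real.logb 2 P.leaves ∧
          Real.logb 2 P.leaves ≤ P.depth :=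
  fun _ _ f g P hf hg hP => ⟨strong_composition3 f g hf hg P hP, leaves_le_depth P⟩

end Pool.Agent.Results.MP_027d00_lc.StrongComposition
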